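import Mathlib

namespace Pool.Agent.Results.MP_6f70ff_gt.Line

open Filter Topology

/-- `N` is a `k`-net: maximal under inclusion among `k`-separated vertex sets. -/
def IsNet {V : Type} (G : SimpleGraph V) (k : ℕ) (N : Set V) : Prop :=
  Maximal (fun M : Set V => ∀ u ∈ M, ∀ v ∈ M, u ≠ v → k ≤ G.dist u v) N

/-- The `k`-net graph on `N`. -/
def netGraph {V : Type} (G : SimpleGraph V) (k : ℕ) (N : Set V) : SimpleGraph N where
  Adj u v := 0 < G.dist u v ∧ G.dist u v ≤ 2 * k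
  symm := ⟨fun u v h => by rwa [SimpleGraph.dist_comm]⟩
  loopless := ⟨fun u h => by simp at h⟩

/-- `f` is a `C`-rough isometry between the graph metrics of `G` and `H`. -/
def Rough {V W : Type} (G : SimpleGraph V) (H : SimpleGraph W) (C : ℝ) (f : V → W) : Prop :=
  (∀ x y, C⁻¹ * H.dist (f x) (f y) - C ≤ G.dist x y ∧
    (G.dist x y : ℝ) ≤ C * H.dist (f x) (f y) + C) ∧ ∀ y, ∃ x, (H.dist (f x) y : ℝ) < C

/-- The constant `C_k` for the net `N`. -/
noncomputable def cst {V : Type} (G : SimpleGraph V) (k : ℕ) (N : Set V) : ℝ :=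
  sInf {C | 0 < C ∧ ∃ f, Rough G (netGraph G k N) C f}

/-- Sub scale invariance, for every choice of the nets. -/
def SubScale {V : Type} (G : SimpleGraph V) : Prop :=
  ∀ N : ℕ → Set V, (∀ k, 1 ≤ k → IsNet G k (N k)) →
    Tendsto (fun k => cst G k (N k)) atTop (𝓝 1)

theorem lip {W : Type} (H : SimpleGraph W) (φ : W → ℤ) (h : ∀ u v, H.Adj u v → φ v ≤ φ u + 1)
    {u v : W} (p : H.Walk u v) : φ v ≤ φ u + p.length := by
  induction p with
  | nil => simp
  | cons a p ih => have := h _ _ a; simp only [SimpleGraph.Walk.length_cons]; push_cast; omega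

theorem walk {W : Type} (H : SimpleGraph W) (f : ℤ → W) (h : ∀ a, H.Adj (f a) (f (a + 1)))
    (a : ℤ) (n : ℕ) : ∃ p : H.Walk (f a) (f (a + n)), p.length = n := by
  induction n generalizing a with
  | zero => exact ⟨SimpleGraph.Walk.nil.copy rfl (by simp), by simp⟩
  | succ n ih =>
    obtain ⟨p, hp⟩ := ih (a + 1)
    exact ⟨(SimpleGraph.Walk.cons (h a) p).copy rfl (by congr 1; push_cast; ring), by simp [hp]⟩

theorem walk' {W : Type} (H : SimpleGraph W) (f : ℤ → W) (h : ∀ a, H.Adj (f a) (f (a + 1)))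
    (a b : ℤ) : ∃ p : H.Walk (f a) (f b), (p.length : ℤ) = |a - b| := by
  rcases le_total a b with c | c
  · obtain ⟨n, rfl⟩ := Int.eq_ofNat_of_zero_le (sub_nonneg.2 c) |>.imp
      (fun n (hn : b - a = (n : ℕ)) => (show b = a + n by omega))
    obtain ⟨p, hp⟩ := walk H f h a n
    exact ⟨p, by rw [hp]; simp⟩
  · obtain ⟨n, rfl⟩ := Int.eq_ofNat_of_zero_le (sub_nonneg.2 c) |>.imp
      (fun n (hn : a - b = (n : ℕ)) => (show a = b + n by omega))
    obtain ⟨p, hp⟩ := walk H f h b n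
    exact ⟨p.reverse, by simp [hp]⟩

theorem bounds {W : Type} (H : SimpleGraph W) (f : ℤ → W) (h : ∀ a, H.Adj (f a) (f (a + 1)))
    (φ : W → ℤ) (hφ : ∀ u v, H.Adj u v → φ v ≤ φ u + 1) (a b : ℤ) :
    (H.dist (f a) (f b) : ℤ) ≤ |a - b| ∧ |φ (f a) - φ (f b)| ≤ H.dist (f a) (f b) := by
  obtain ⟨p, hp⟩ := walk' H f h a b
  refine ⟨by rw [← hp]; exact_mod_cast SimpleGraph.dist_le p, ?_⟩
  obtain ⟨q, hq⟩ := p.reachable.exists_walk_length_eq_dist
  have h1 := lip H φ hφ q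
  have h2 := lip H φ hφ q.reverse
  rw [SimpleGraph.Walk.length_reverse] at h2
  rw [← hq, abs_le]; omega

def Z : SimpleGraph ℤ where
  Adj x y := y = x + 1 ∨ x = y + 1
  symm := ⟨fun _ _ h => h.symm⟩
  loopless := ⟨fun _ h => by omega⟩

theorem Zdist (a b : ℤ) : (Z.dist a b : ℤ) = |a - b| := by
  have := bounds Z id (fun a => Or.inl rfl) id (fun u v h => by
    rcases h with h | h <;> simp only [id] <;> omega) a b
  exact le_antisymm this.1 this.2

theorem fwd (N : Set ℤ) (k : ℤ) (hN : ∀ x, ∃ v ∈ N, x - k < v ∧ v < x + k) (u0 : ℤ)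
    (h0 : u0 ∈ N) : ∃ (p : ℕ → ℤ) (h : ℤ → ℕ), p 0 = u0 ∧ (∀ m, p m ∈ N) ∧
      (∀ m, p m < p (m + 1) ∧ p (m + 1) ≤ p m + 2 * k) ∧ (∀ m, h (p m) = m) ∧
      (∀ v, v ≤ u0 ↔ h v = 0) ∧ (∀ u, ∀ v ∈ N, v ≤ u + 2 * k → h v ≤ h u + 1) ∧ Monotone h ∧
      ∀ v, u0 ≤ v → ∃ m, p m ≤ v ∧ v ≤ p m + 2 * k := by
  classical
  have ex : ∀ u : ℤ, ∃ w, (w ∈ N ∧ w ≤ u + 2 * k) ∧ ∀ v, v ∈ N ∧ v ≤ u + 2 * k → v ≤ w := by
    intro u
    obtain ⟨v, hv, a, b⟩ := hN (u + k)
    exact Int.exists_greatest_of_bdd ⟨u + 2 * k, fun z hz => hz.2⟩ ⟨v, hv, by omega⟩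
  choose up h1 h2 using ex
  have h3 : ∀ u, u < up u := fun u => by
    obtain ⟨v, hv, a, b⟩ := hN (u + k)
    have := h2 u v ⟨hv, by omega⟩
    omega
  let p : ℕ → ℤ := fun m => up^[m] u0
  have ps : ∀ m, p (m + 1) = up (p m) := fun m => Function.iterate_succ_apply' _ _ _
  have sm : StrictMono p := strictMono_nat_of_lt_succ fun m => by rw [ps]; exact h3 _
  have ge : ∀ m : ℕ, u0 + m ≤ p m := by
    intro m
    induction m with
    | zero => simp [p]
    | succ m ih => have : p m < p (m + 1) := sm (Nat.lt_succ_self m); push_cast; omega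
  have hex : ∀ v, ∃ m, v ≤ p m := fun v => ⟨(v - u0).toNat, by have := ge (v - u0).toNat; omega⟩
  refine ⟨p, fun v => Nat.find (hex v), rfl, fun m => ?_, fun m => ?_, fun m => ?_, fun v => ?_,
    fun u v hv a => ?_, fun u v a => ?_, fun v a => ?_⟩
  · cases m with
    | zero => exact h0
    | succ m => rw [ps]; exact (h1 _).1
  · rw [ps]; exact ⟨h3 _, (h1 _).2⟩
  · rw [Nat.find_eq_iff]
    exact ⟨le_rfl, fun j hj => not_le.2 (sm hj)⟩
  · rw [Nat.find_eq_zero]; rfl
  · refine Nat.find_min' _ ?_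
    rw [ps]
    have := Nat.find_spec (hex u)
    exact h2 _ v ⟨hv, by simp only; omega⟩
  · exact Nat.find_min' _ (a.trans (Nat.find_spec (hex v)))
  · have s := Nat.find_spec (hex (v + 1))
    rcases e : Nat.find (hex (v + 1)) with _ | m
    · rw [e] at s
      have : p 0 = u0 := rfl
      omega
    · have := Nat.find_min (hex (v + 1)) (m := m) (by omega)
      rw [e, ps] at s
      have := (h1 (p m)).2
      exact ⟨m, by omega, by omega⟩

theorem good (k : ℕ) (hk : 1 ≤ k) (N : Set ℤ) (hN : IsNet Z k N) : ∃ f : ℤ → N,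
    (∀ a b, ((netGraph Z k N).dist (f a) (f b) : ℤ) ≤ |a - b| ∧
      |a - b| ≤ (netGraph Z k N).dist (f a) (f b) + 1) ∧
    ∀ y, ∃ a, (netGraph Z k N).dist (f a) y ≤ 1 := by
  have hd : ∀ x : ℤ, ∃ v ∈ N, x - k < v ∧ v < x + k := by
    intro x
    by_contra hc
    push Not at hc
    have hx : ∀ v ∈ N, k ≤ Z.dist x v := fun v hv => by
      have := hc v hv
      have e := Zdist x v
      rcases abs_cases (x - v) with a | a <;> omega
    have := hN.2 (y := insert x N) (by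
      rintro u (rfl | hu) v (rfl | hv) h
      · exact absurd rfl h
      · exact hx v hv
      · rw [SimpleGraph.dist_comm]; exact hx u hu
      · exact hN.1 u hu v hv h) (Set.subset_insert _ _) (Set.mem_insert _ _)
    have := hc x this
    omega
  obtain ⟨u0, h0, -⟩ := hd 0
  obtain ⟨p, h, p0, p1, p2, p3, p4, p5, p6, p7⟩ := fwd N k hd u0 h0
  obtain ⟨q, g, q0, q1, q2, q3, q4, q5, q6, q7⟩ := fwd {x | -x ∈ N} k (fun x => by
    obtain ⟨v, hv, a, b⟩ := hd (-x)
    exact ⟨-v, by simpa using hv, by omega, by omega⟩) (-u0) (by simpa using h0)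
  have adj : ∀ u v : N, (netGraph Z k N).Adj u v ↔
      u.1 ≠ v.1 ∧ u.1 ≤ v.1 + 2 * k ∧ v.1 ≤ u.1 + 2 * k := fun u v => by
    have e := Zdist u v
    show 0 < Z.dist u v ∧ Z.dist u v ≤ 2 * k ↔ _
    rcases abs_cases (u.1 - v.1) with a | a <;> omega
  let F : ℤ → ℤ := fun a => if 0 ≤ a then p a.toNat else -q (-a).toNat
  have FP : ∀ m : ℕ, F m = p m := fun m => by simp [F]
  have FN : ∀ m : ℕ, F (-m) = -q m := fun m => by
    rcases m with _ | m
    · simp [F, p0, q0]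
    · simp only [F]; rw [if_neg (by omega)]; simp
  have cs : ∀ a : ℤ, (∃ m : ℕ, a = m) ∨ ∃ m : ℕ, a = -((m + 1 : ℕ) : ℤ) := fun a => by
    by_cases c : 0 ≤ a
    · exact Or.inl ⟨a.toNat, by omega⟩
    · exact Or.inr ⟨(-a - 1).toNat, by omega⟩
  have FM : ∀ a, F a ∈ N := fun a => by
    rcases cs a with ⟨m, rfl⟩ | ⟨m, rfl⟩
    · rw [FP]; exact p1 m
    · rw [FN]; exact q1 _
  let φ : N → ℤ := fun v => ((h v - 1 : ℕ) : ℤ) - g (-v)
  have B := bounds (netGraph Z k N) (fun a => ⟨F a, FM a⟩) (fun a => by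
    rw [adj]
    rcases cs a with ⟨m, rfl⟩ | ⟨m, rfl⟩
    · have := FP (m + 1)
      have := p2 m
      simp only [FP]; push_cast at *; omega
    · have e : -((m + 1 : ℕ) : ℤ) + 1 = -m := by push_cast; ring
      have := q2 m
      simp only [e, FN]; omega) φ (fun u v a => by
    rw [adj] at a
    have a1 := p5 u v v.2 a.2.2
    have a2 := q5 (-v) (-u) (by simp) (by omega)
    have a3 := p4 u
    have a4 := q4 (-u)
    simp only [φ]
    rcases le_total u.1 v.1 with c | c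
    · omega
    · have := p6 c
      have := q6 (show -u.1 ≤ -v.1 by omega)
      omega)
  have V : ∀ a, φ ⟨F a, FM a⟩ = if 0 < a then a - 1 else a := fun a => by
    simp only [φ]
    rcases cs a with ⟨m, rfl⟩ | ⟨m, rfl⟩
    · have := p6.comp (f := id) monotone_id
      have sm : StrictMono p := strictMono_nat_of_lt_succ fun m => (p2 m).1
      have := sm.monotone (Nat.zero_le m)
      rw [FP, p3, (q4 _).1 (by omega)]
      split_ifs <;> omega
    · have sm : StrictMono q := strictMono_nat_of_lt_succ fun m => (q2 m).1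
      have := sm.monotone (Nat.zero_le (m + 1))
      rw [FN, neg_neg, q3, (p4 _).1 (by omega)]
      split_ifs <;> omega
  refine ⟨fun a => ⟨F a, FM a⟩, fun a b => ⟨(B a b).1, ?_⟩, fun y => ?_⟩
  · have := (B a b).2
    rw [V, V, abs_le] at this
    rw [abs_le]
    simp only
    split_ifs at this <;> omega
  · have : ∃ a, F a ≤ y + 2 * k ∧ y ≤ F a + 2 * k := by
      rcases le_total u0 y with c | c
      · obtain ⟨m, a, b⟩ := p7 y c
        exact ⟨m, by rw [FP]; omega⟩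
      · obtain ⟨m, a, b⟩ := q7 (-y) (by omega)
        exact ⟨-m, by rw [FN]; omega⟩
    obtain ⟨a, h1, h2⟩ := this
    refine ⟨a, ?_⟩
    by_cases e : F a = y
    · have : (⟨F a, FM a⟩ : N) = y := Subtype.ext e
      simp [this]
    · exact (SimpleGraph.dist_eq_one_iff_adj.2 ((adj _ _).2 ⟨e, h1, h2⟩)).le

theorem cst_eq (k : ℕ) (hk : 1 ≤ k) (N : Set ℤ) (hN : IsNet Z k N) : cst Z k N = 1 := by
  obtain ⟨f, h1, h2⟩ := good k hk N hN
  have up : ∀ C : ℝ, 1 < C → 0 < C ∧ ∃ f, Rough Z (netGraph Z k N) C f := by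
    intro C hC
    refine ⟨by linarith, f, fun a b => ?_, fun y => ?_⟩
    · obtain ⟨x1, x2⟩ := h1 a b
      rw [← Zdist] at x1 x2
      have y1 : ((netGraph Z k N).dist (f a) (f b) : ℝ) ≤ Z.dist a b := by exact_mod_cast x1
      have y2 : (Z.dist a b : ℝ) ≤ (netGraph Z k N).dist (f a) (f b) + 1 := by exact_mod_cast x2
      have y3 : (0 : ℝ) ≤ (netGraph Z k N).dist (f a) (f b) := by positivity
      have y4 : C⁻¹ ≤ 1 := inv_le_one_of_one_le₀ hC.le
      constructor <;> nlinarith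
    · obtain ⟨a, ha⟩ := h2 y
      have : ((netGraph Z k N).dist (f a) y : ℝ) ≤ 1 := by exact_mod_cast ha
      exact ⟨a, by linarith⟩
  have lo : ∀ C ∈ {C : ℝ | 0 < C ∧ ∃ f, Rough Z (netGraph Z k N) C f}, 1 ≤ C := by
    rintro C ⟨hC, g, hg, -⟩
    by_contra hlt
    push Not at hlt
    obtain ⟨n, hn⟩ := exists_nat_gt (2 / (1 - C))
    obtain ⟨a, b⟩ := hg 0 n
    have e : (Z.dist 0 n : ℝ) = n := by
      have := Zdist 0 n
      simp only [zero_sub, abs_neg, Nat.abs_cast, Nat.cast_inj] at this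
      rw [this]
    rw [e] at a b
    rw [div_lt_iff₀ (by linarith)] at hn
    generalize (((netGraph Z k N).dist (g 0) (g n) : ℕ) : ℝ) = d at a b
    have c : d ≤ C * (n + C) := by
      rw [← inv_mul_le_iff₀ hC]; linarith
    have hn0 : (0 : ℝ) ≤ n := by positivity
    have c2 : d ≤ n + 1 := by nlinarith
    nlinarith
  refine le_antisymm (le_of_forall_gt_imp_ge_of_dense fun C hC => csInf_le ⟨1, lo⟩ (up C hC))
    (le_csInf ⟨2, up 2 (by norm_num)⟩ lo)

theorem result : ∃ (V : Type) (G : SimpleGraph V), G.Connected ∧ Infinite V ∧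
    (∀ v, (G.neighborSet v).Finite) ∧ (∀ u v, ∃ e : G ≃g G, e u = v) ∧ SubScale G := by
  refine ⟨ℤ, Z, ⟨fun a b => ?_⟩, inferInstance, fun v => ?_, fun u v => ?_, fun N hN => ?_⟩
  · obtain ⟨p, -⟩ := walk' Z id (fun a => Or.inl rfl) a b
    exact p.reachable
  · refine (Set.toFinite {v + 1, v - 1}).subset fun w hw => ?_
    rcases hw with h | h
    · exact Or.inl h
    · exact Or.inr (by simp only [Set.mem_singleton_iff]; omega)
  · refine ⟨⟨Equiv.addRight (v - u), fun {a b} => ?_⟩, by simp⟩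
    simp only [Z, Equiv.coe_addRight]; omega
  · refine tendsto_const_nhds.congr' ?_
    filter_upwards [eventually_ge_atTop 1] with k hk
    exact (cst_eq k hk _ (hN k hk)).symm

end Pool.Agent.Results.MP_6f70ff_gt.Line
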